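import Pool.Agent.N226.SX.St

/-!
# Expansions of a sequence and of its doubling `f (2 n) - 2 f n`
-/

set_option autoImplicit false

namespace Pool.Agent.U611.DX

open Finset Filter Topology Pool.Agent.N226.SX

theorem D_congr' (r : ℕ) (f g : ℕ → ℝ) (n : ℕ) (h : ∀ m, f m = g m) : D r f n = D r g n := by
  unfold D
  exact Finset.sum_congr rfl fun i _ => by rw [h]

theorem D_add' (r : ℕ) (f g : ℕ → ℝ) (n : ℕ) :
    D r (fun k => f k + g k) n = D r f n + D r g n := by
  unfold D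
  rw [← Finset.sum_add_distrib]
  exact Finset.sum_congr rfl fun i _ => by ring

theorem D_shift' (r : ℕ) (f : ℕ → ℝ) (n : ℕ) :
    D r (fun k => f (k + 1)) n = D r f (n + 1) := by
  unfold D
  refine Finset.sum_congr rfl fun i _ => ?_
  simp only
  rw [show n + i + 1 = n + 1 + i by ring]

/-- differences with step two are bounded by differences with step one -/
theorem D2_le : ∀ (r : ℕ) (f : ℕ → ℝ) (n : ℕ) (B : ℝ),
    (∀ m, n ≤ m → m ≤ n + r → |D r f m| ≤ B) → |D2 r f n| ≤ 2 ^ r * B := by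
  intro r
  induction r with
  | zero =>
    intro f n B h
    have := h n le_rfl (by omega)
    simpa [D2, D] using this
  | succ r ih =>
    intro f n B h
    have e1 : D2 (r + 1) f n = D2 r (fun m => f m - f (m + 2)) n := by
      have h1 := D2_eq (r + 1) (fun m => f (m + n)) 0 0
      have h2 := D2_eq r (fun m => f (m + n) - f (m + n + 2)) 0 0
      have e2 : D2 (r + 1) f n = D2 (r + 1) (fun m => f (m + n)) (2 * 0 + 0) := by
        unfold D2
        refine Finset.sum_congr rfl fun i _ => ?_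
        simp only
        rw [show 2 * 0 + 0 + 2 * i + n = n + 2 * i by ring]
      have e3 : D2 r (fun m => f m - f (m + 2)) n =
          D2 r (fun m => f (m + n) - f (m + n + 2)) (2 * 0 + 0) := by
        unfold D2
        refine Finset.sum_congr rfl fun i _ => ?_
        simp only
        rw [show 2 * 0 + 0 + 2 * i + n = n + 2 * i by ring]
      rw [e2, e3, h1, h2, D_succ']
      refine D_congr' _ _ _ _ fun m => ?_
      rw [show 2 * (m + 1) + 0 + n = 2 * m + 0 + n + 2 by ring]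
    rw [e1]
    have h3 : ∀ m, n ≤ m → m ≤ n + r →
        |D r (fun m => f m - f (m + 2)) m| ≤ 2 * B := by
      intro m h4 h5
      have e2 : D r (fun m => f m - f (m + 2)) m = D (r + 1) f m + D (r + 1) f (m + 1) := by
        rw [D_succ', D_succ', ← D_shift', ← D_add']
        refine D_congr' _ _ _ _ fun k => ?_
        rw [show k + 1 + 1 = k + 2 by ring]
        ring
      rw [e2]
      have a1 := h m h4 (by omega)
      have a2 := h (m + 1) (by omega) (by omega)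
      calc |D (r + 1) f m + D (r + 1) f (m + 1)| ≤ _ := abs_add_le _ _
        _ ≤ 2 * B := by linarith
    have h6 := ih _ n (2 * B) h3
    calc _ ≤ 2 ^ r * (2 * B) := h6
      _ = 2 ^ (r + 1) * B := by ring

/-- regularity is inherited by the even terms -/
theorem reg_double {κ : ℝ} {f : ℕ → ℝ} (h : Reg κ f) : Reg κ (fun k => f (2 * k)) := by
  intro a ha0 ha r hr
  obtain ⟨C, hC⟩ := h a ha0 ha r hr
  obtain ⟨N, hN⟩ := eventually_atTop.1 hC
  refine ⟨2 ^ r * |C|, ?_⟩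
  filter_upwards [eventually_ge_atTop (max N 1)] with k hk
  have hk1 : 1 ≤ k := (le_max_right _ _).trans hk
  have hkN : N ≤ k := (le_max_left _ _).trans hk
  have hkp : (0 : ℝ) < k := by exact_mod_cast hk1
  have e : D r (fun k => f (2 * k)) k = D2 r f (2 * k) := by
    have := D2_eq r f 0 k
    rw [add_zero] at this
    rw [this]
    exact D_congr' _ _ _ _ fun m => by rw [add_zero]
  rw [e]
  have h1 : ∀ m, 2 * k ≤ m → m ≤ 2 * k + r → |D r f m| ≤ |C| * (k : ℝ) ^ (-(a * r)) := by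
    intro m h2 _
    have h3 := hN m (by omega)
    have hkm : (k : ℝ) ≤ m := by exact_mod_cast (by omega : k ≤ m)
    refine h3.trans ?_
    have h4 : (m : ℝ) ^ (-(a * r)) ≤ (k : ℝ) ^ (-(a * r)) :=
      Real.rpow_le_rpow_of_nonpos hkp hkm (by
        have : 0 ≤ a * r := by positivity
        linarith)
    calc C * (m : ℝ) ^ (-(a * r)) ≤ |C| * (m : ℝ) ^ (-(a * r)) :=
          mul_le_mul_of_nonneg_right (le_abs_self C) (by positivity)
      _ ≤ |C| * (k : ℝ) ^ (-(a * r)) := mul_le_mul_of_nonneg_left h4 (abs_nonneg C)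
  have h5 := D2_le r f (2 * k) _ h1
  rw [← mul_assoc] at h5
  exact h5

/-- the coefficients of the expansion of `f` -/
noncomputable def cf (q : ℕ) (α : ℝ) (c θ : Fin q → ℝ) : Fin (q + 1) → ℝ :=
  Fin.cons (α * Real.log 2) (fun i => -(c i) / (2 - 2 ^ (-(θ i))))

/-- its exponents -/
noncomputable def ex (q : ℕ) (θ : Fin q → ℝ) : Fin (q + 1) → ℝ := Fin.cons 0 θ

theorem ex_nonneg {q : ℕ} {θ : Fin q → ℝ} (hθ : ∀ i, 0 ≤ θ i) : ∀ i, 0 ≤ ex q θ i := by
  intro i
  refine Fin.cases ?_ (fun i => ?_) i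
  · simp [ex]
  · simpa [ex] using hθ i

theorem G_cons (q : ℕ) (α : ℝ) (c θ : Fin q → ℝ) (x : ℝ) :
    G (q + 1) α (cf q α c θ) (ex q θ) x = α * Real.log x + α * Real.log 2 -
      ∑ i, c i / (2 - 2 ^ (-(θ i))) * x ^ (-(θ i)) := by
  unfold G cf ex
  rw [Fin.sum_univ_succ]
  simp only [Fin.cons_zero, Fin.cons_succ, neg_zero, Real.rpow_zero, mul_one]
  have : ∑ i, -(c i) / (2 - 2 ^ (-(θ i))) * x ^ (-(θ i)) =
      -∑ i, c i / (2 - 2 ^ (-(θ i))) * x ^ (-(θ i)) := by
    rw [← Finset.sum_neg_distrib]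
    exact Finset.sum_congr rfl fun i _ => by ring
  rw [this]
  ring

theorem two_sub_pos {t : ℝ} (ht : 0 ≤ t) : 0 < 2 - (2 : ℝ) ^ (-t) := by
  have : (2 : ℝ) ^ (-t) ≤ 1 := Real.rpow_le_one_of_one_le_of_nonpos (by norm_num) (by linarith)
  linarith

/-- the functional equation of the expansions -/
theorem G_double (q : ℕ) (α : ℝ) (c θ : Fin q → ℝ) (hθ : ∀ i, 0 ≤ θ i) (x : ℝ) (hx : 0 < x) :
    G (q + 1) α (cf q α c θ) (ex q θ) (2 * x) - 2 * G (q + 1) α (cf q α c θ) (ex q θ) x =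
      G q (-α) c θ x := by
  rw [G_cons, G_cons]
  unfold G
  rw [Real.log_mul (by norm_num) hx.ne']
  have h1 : ∑ i, c i / (2 - 2 ^ (-(θ i))) * (2 * x) ^ (-(θ i)) =
      2 * ∑ i, c i / (2 - 2 ^ (-(θ i))) * x ^ (-(θ i)) - ∑ i, c i * x ^ (-(θ i)) := by
    rw [Finset.mul_sum, ← Finset.sum_sub_distrib]
    refine Finset.sum_congr rfl fun i _ => ?_
    have h2 := two_sub_pos (hθ i)
    rw [Real.mul_rpow (by norm_num) hx.le]
    field_simp
    ring
  rw [h1]
  ring

/-- `(log k) / k → 0` and so on: the expansions are small compared with `k` -/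
theorem G_small (q : ℕ) (α : ℝ) (c θ : Fin q → ℝ) (hθ : ∀ i, 0 ≤ θ i) (st : ℕ) (hst : 1 ≤ st) :
    Tendsto (fun k : ℕ => G q α c θ ((st * k : ℕ) : ℝ) / k) atTop (𝓝 0) := by
  have hs0 : (0 : ℝ) < st := by exact_mod_cast hst
  have hlog : Tendsto (fun k : ℕ => Real.log ((st * k : ℕ) : ℝ) / ((st * k : ℕ) : ℝ)) atTop
      (𝓝 0) := by
    have h1 : Tendsto (fun x : ℝ => Real.log x / x) atTop (𝓝 0) := by
      have := Real.isLittleO_log_id_atTop.tendsto_div_nhds_zero
      simpa using this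
    have h2 : Tendsto (fun k : ℕ => ((st * k : ℕ) : ℝ)) atTop atTop :=
      tendsto_natCast_atTop_atTop.comp
        (tendsto_atTop_mono (fun k => (by nlinarith : k ≤ st * k)) tendsto_id)
    exact h1.comp h2
  have h1 : Tendsto (fun k : ℕ => α * st * (Real.log ((st * k : ℕ) : ℝ) / ((st * k : ℕ) : ℝ)))
      atTop (𝓝 0) := by simpa using hlog.const_mul (α * st)
  have hinv : Tendsto (fun k : ℕ => (∑ i, |c i|) * ((k : ℝ))⁻¹) atTop (𝓝 0) := by
    simpa using (tendsto_inv_atTop_zero.comp tendsto_natCast_atTop_atTop).const_mul (∑ i, |c i|)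
  have h2 : Tendsto (fun k : ℕ => (∑ i, c i * (((st * k : ℕ) : ℝ)) ^ (-(θ i))) / k) atTop
      (𝓝 0) := by
    refine squeeze_zero_norm' ?_ hinv
    filter_upwards [eventually_ge_atTop 1] with k hk
    have hkp : (0 : ℝ) < k := by exact_mod_cast hk
    have hx1 : (1 : ℝ) ≤ ((st * k : ℕ) : ℝ) := by exact_mod_cast Nat.mul_pos hst hk
    rw [norm_div, Real.norm_eq_abs, Real.norm_eq_abs, abs_of_pos hkp, div_eq_mul_inv]
    apply mul_le_mul_of_nonneg_right _ (by positivity)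
    refine (Finset.abs_sum_le_sum_abs _ _).trans (Finset.sum_le_sum fun i _ => ?_)
    rw [abs_mul, abs_of_nonneg (Real.rpow_nonneg (by linarith) _)]
    calc |c i| * (((st * k : ℕ) : ℝ)) ^ (-(θ i)) ≤ |c i| * 1 :=
          mul_le_mul_of_nonneg_left (Real.rpow_le_one_of_one_le_of_nonpos hx1
            (by linarith [hθ i])) (abs_nonneg _)
      _ = |c i| := mul_one _
  have h3 := h1.add h2
  rw [add_zero] at h3
  refine h3.congr' ?_
  filter_upwards [eventually_ge_atTop 1] with k hk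
  have hkp : (0 : ℝ) < k := by exact_mod_cast hk
  unfold G
  push_cast
  field_simp

/-- **Doubling.** -/
theorem doubling {κ : ℝ} (hκ : κ ≤ 1) {f : ℕ → ℝ} (st : ℕ) (hst : 1 ≤ st)
    (hf : Reg κ (fun k => f (st * k)))
    (hlim : Tendsto (fun k : ℕ => f (st * k) / k) atTop (𝓝 0))
    (q : ℕ) (α : ℝ) (c θ : Fin q → ℝ) (hθ : ∀ i, 0 ≤ θ i)
    (M e : ℝ) (hM : 0 ≤ M) (he0 : 0 ≤ e) (he : e < κ) (v : ℕ → ℕ) (hv : Tendsto v atTop atTop)
    (hgap : ∀ᶠ j in atTop, (v (j + 1) : ℝ) ≤ v j + (v j : ℝ) ^ e)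
    (hval : ∃ C : ℝ, ∀ᶠ j in atTop, |(f (2 * (st * v j)) - 2 * f (st * v j)) -
      G q (-α) c θ ((st * v j : ℕ) : ℝ)| ≤ C * (v j : ℝ) ^ (-M)) :
    ∃ C : ℝ, ∀ᶠ k : ℕ in atTop, |f (st * k) -
      G (q + 1) α (cf q α c θ) (ex q θ) ((st * k : ℕ) : ℝ)| ≤ C * (k : ℝ) ^ (-M) := by
  set F : ℕ → ℝ := fun k => f (st * k) with hF
  set E : ℕ → ℝ := fun k => G q (-α) c θ ((st * k : ℕ) : ℝ) with hE
  set H : ℕ → ℝ := fun k => G (q + 1) α (cf q α c θ) (ex q θ) ((st * k : ℕ) : ℝ) with hH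
  have hEr : Reg κ E := by
    have := reg_Gs κ hκ st hst 0 q (-α) c θ hθ
    refine cast ?_ this
    congr 1
    funext k
    rw [hE]
    push_cast
    rw [add_zero]
  have hh : Reg κ (fun k => ((F (2 * k) - F k) - F k) - E k) :=
    (((reg_double hf).sub hf).sub hf).sub hEr
  have hval' : ∃ C : ℝ, ∀ᶠ j in atTop, |((F (2 * v j) - F (v j)) - F (v j)) - E (v j)| ≤
      C * (v j : ℝ) ^ (-M) := by
    obtain ⟨C, hC⟩ := hval
    refine ⟨C, ?_⟩
    filter_upwards [hC] with j hj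
    have e1 : (F (2 * v j) - F (v j)) - F (v j) = f (2 * (st * v j)) - 2 * f (st * v j) := by
      rw [hF]
      simp only
      rw [show st * (2 * v j) = 2 * (st * v j) by ring]
      ring
    rw [e1]
    exact hj
  obtain ⟨C, hC⟩ := sparse hh hκ hM he0 he v hv hgap hval' 0 0 le_rfl (by linarith)
  simp only [D_zero, CharP.cast_eq_zero, mul_zero, add_zero] at hC
  obtain ⟨k0, hk0⟩ := eventually_atTop.1 hC
  set Δ : ℕ → ℝ := fun k => F k - H k with hΔ
  have hfun : ∀ k, 1 ≤ k → Δ (2 * k) - 2 * Δ k = ((F (2 * k) - F k) - F k) - E k := by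
    intro k hk
    have hs : (0 : ℝ) < ((st * k : ℕ) : ℝ) := by exact_mod_cast Nat.mul_pos hst hk
    have h1 := G_double q α c θ hθ ((st * k : ℕ) : ℝ) hs
    have e1 : H (2 * k) = G (q + 1) α (cf q α c θ) (ex q θ) (2 * ((st * k : ℕ) : ℝ)) := by
      rw [hH]
      simp only
      congr 1
      push_cast
      ring
    rw [hΔ]
    simp only
    rw [e1, hE, hH]
    simp only
    linarith
  have hΔlim : Tendsto (fun k : ℕ => Δ k / k) atTop (𝓝 0) := by
    have h1 := hlim.sub (G_small (q + 1) α (cf q α c θ) (ex q θ) (ex_nonneg hθ) st hst)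
    rw [sub_zero] at h1
    refine h1.congr fun k => ?_
    rw [hΔ, hF, hH]
    simp only
    ring
  refine ⟨|C|, ?_⟩
  filter_upwards [eventually_ge_atTop (max k0 1)] with k hk
  have hk1 : 1 ≤ k := (le_max_right _ _).trans hk
  have hkk : k0 ≤ k := (le_max_left _ _).trans hk
  have hkp : (0 : ℝ) < k := by exact_mod_cast hk1
  have key : ∀ m : ℕ, |Δ k| ≤ |C| * (k : ℝ) ^ (-M) * (1 - (1 / 2) ^ m) +
      |Δ (2 ^ m * k)| / 2 ^ m := by
    intro m
    induction m with
    | zero => simp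
    | succ m ih =>
      have hp : 1 ≤ 2 ^ m := Nat.one_le_two_pow
      have hm1 : k ≤ 2 ^ m * k := Nat.le_mul_of_pos_left k hp
      have h1 := hfun (2 ^ m * k) (by omega)
      have h2 := hk0 (2 ^ m * k) (by omega)
      rw [← h1] at h2
      have h3 : (((2 ^ m * k : ℕ)) : ℝ) ^ (-M) ≤ (k : ℝ) ^ (-M) :=
        Real.rpow_le_rpow_of_nonpos hkp (by exact_mod_cast hm1) (by linarith)
      have h4 : |Δ (2 * (2 ^ m * k)) - 2 * Δ (2 ^ m * k)| ≤ |C| * (k : ℝ) ^ (-M) := by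
        refine h2.trans ?_
        calc C * (((2 ^ m * k : ℕ)) : ℝ) ^ (-M) ≤ |C| * (((2 ^ m * k : ℕ)) : ℝ) ^ (-M) :=
              mul_le_mul_of_nonneg_right (le_abs_self C) (by positivity)
          _ ≤ |C| * (k : ℝ) ^ (-M) := mul_le_mul_of_nonneg_left h3 (abs_nonneg C)
      have h5 : |Δ (2 ^ m * k)| ≤ (|C| * (k : ℝ) ^ (-M) + |Δ (2 * (2 ^ m * k))|) / 2 := by
        have h6 : 2 * |Δ (2 ^ m * k)| = |2 * Δ (2 ^ m * k)| := by
          rw [abs_mul, abs_of_pos (by norm_num : (0 : ℝ) < 2)]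
        have h7 : |2 * Δ (2 ^ m * k)| ≤ |Δ (2 * (2 ^ m * k)) - 2 * Δ (2 ^ m * k)| +
            |Δ (2 * (2 ^ m * k))| := by
          have := abs_sub_abs_le_abs_sub (2 * Δ (2 ^ m * k)) (Δ (2 * (2 ^ m * k)))
          rw [abs_sub_comm (2 * Δ (2 ^ m * k)) (Δ (2 * (2 ^ m * k)))] at this
          linarith
        linarith
      have e1 : 2 ^ (m + 1) * k = 2 * (2 ^ m * k) := by ring
      rw [e1]
      have h8 : (0 : ℝ) < 2 ^ m := by positivity
      have h9 : |Δ (2 ^ m * k)| / 2 ^ m ≤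
          ((|C| * (k : ℝ) ^ (-M) + |Δ (2 * (2 ^ m * k))|) / 2) / 2 ^ m :=
        div_le_div_of_nonneg_right h5 h8.le
      refine ih.trans ((add_le_add_right h9 _).trans (le_of_eq ?_))
      rw [one_div, inv_pow, inv_pow, pow_succ]
      field_simp
      ring
  have hlim2 : Tendsto (fun m : ℕ => |C| * (k : ℝ) ^ (-M) * (1 - (1 / 2) ^ m) +
      |Δ (2 ^ m * k)| / 2 ^ m) atTop (𝓝 (|C| * (k : ℝ) ^ (-M) * (1 - 0) + 0)) := by
    have h1 : Tendsto (fun m : ℕ => ((1 : ℝ) / 2) ^ m) atTop (𝓝 0) :=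
      tendsto_pow_atTop_nhds_zero_of_lt_one (by norm_num) (by norm_num)
    have h2 : Tendsto (fun m : ℕ => 2 ^ m * k) atTop atTop := by
      refine tendsto_atTop_mono (fun m => ?_) tendsto_id
      exact (Nat.lt_two_pow_self (n := m)).le.trans (Nat.le_mul_of_pos_right _ hk1)
    have h3 : Tendsto (fun m : ℕ => |Δ (2 ^ m * k)| / 2 ^ m) atTop (𝓝 0) := by
      have h4 := ((hΔlim.comp h2).norm).mul_const (k : ℝ)
      rw [norm_zero, zero_mul] at h4
      refine h4.congr fun m => ?_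
      simp only [Function.comp_apply]
      rw [norm_div, Real.norm_eq_abs, Real.norm_eq_abs,
        abs_of_nonneg (Nat.cast_nonneg (α := ℝ) (2 ^ m * k))]
      push_cast
      field_simp
    exact ((tendsto_const_nhds.sub h1).const_mul _).add h3
  rw [sub_zero, mul_one, add_zero] at hlim2
  exact ge_of_tendsto' hlim2 key

end Pool.Agent.U611.DX
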