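import Mathlib

/-!
# Leading order of a sequence and of its doubling
-/

set_option autoImplicit false

namespace Pool.Agent.U611.DX

open Finset Filter Topology

/-- the limit along lengths with gaps `o (√n)` is the limit along all lengths -/
theorem lead_near {h : ℕ → ℝ} {C : ℝ} (hC : 0 ≤ C)
    (hd : ∀ᶠ k : ℕ in atTop, |h (k + 1) - h k| ≤ C * (Real.log k / √k)) {v : ℕ → ℕ}
    (hv : Tendsto v atTop atTop)
    (hgap : ∀ ε : ℝ, 0 < ε → ∀ᶠ j in atTop, (v (j + 1) : ℝ) ≤ v j + ε * √(v j : ℝ)) {β : ℝ}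
    (hval : Tendsto (fun j => h (v j) / Real.log (v j)) atTop (𝓝 β)) :
    Tendsto (fun k : ℕ => h k / Real.log k) atTop (𝓝 β) := by
  rw [Metric.tendsto_atTop]
  intro δ hδ
  set ε : ℝ := min 1 (δ / (4 * (2 * C + 1))) with hεdef
  have hε : 0 < ε := lt_min one_pos (by positivity)
  have hε1 : ε ≤ 1 := min_le_left _ _
  have hεδ : (2 * C + 1) * ε ≤ δ / 4 := by
    have h1 : ε ≤ δ / (4 * (2 * C + 1)) := min_le_right _ _
    calc (2 * C + 1) * ε ≤ (2 * C + 1) * (δ / (4 * (2 * C + 1))) :=
          mul_le_mul_of_nonneg_left h1 (by positivity)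
      _ = δ / 4 := by field_simp
  obtain ⟨k1, hk1⟩ := eventually_atTop.1 hd
  have h2 := (Metric.tendsto_atTop.1 hval) ε hε
  obtain ⟨j1, hj1⟩ := h2
  obtain ⟨j2, hj2⟩ := eventually_atTop.1 (hgap ε hε)
  obtain ⟨j3, hj3⟩ := eventually_atTop.1 (hv.eventually_ge_atTop (max k1 3))
  set j0 := max j1 (max j2 j3) with hj0
  have hlog : Tendsto (fun k : ℕ => Real.log (k : ℝ)) atTop atTop :=
    Real.tendsto_log_atTop.comp tendsto_natCast_atTop_atTop
  obtain ⟨k2, hk2⟩ := eventually_atTop.1 (hlog.eventually_gt_atTop (4 * |β| * Real.log 2 / δ))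
  refine ⟨max (v j0) (max k2 3), fun k hk => ?_⟩
  have hkv : v j0 ≤ k := (le_max_left _ _).trans hk
  have hkk2 : k2 ≤ k := ((le_max_left _ _).trans (le_max_right _ _)).trans hk
  have hk3 : 3 ≤ k := ((le_max_right _ _).trans (le_max_right _ _)).trans hk
  -- the largest index
  obtain ⟨j, hj, hvj, hvj1⟩ : ∃ j, j0 ≤ j ∧ v j ≤ k ∧ k < v (j + 1) := by
    by_contra hcon
    push Not at hcon
    have hall : ∀ i, v (j0 + i) ≤ k := by
      intro i
      induction i with
      | zero => simpa using hkv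
      | succ i ih => exact hcon (j0 + i) (by omega) ih
    obtain ⟨i0, hi0⟩ := eventually_atTop.1 (hv.eventually_ge_atTop (k + 1))
    have h5 := hall i0
    have h6 := hi0 (j0 + i0) (by omega)
    omega
  have hjj1 : j1 ≤ j := (le_max_left _ _).trans hj
  have hjj2 : j2 ≤ j := ((le_max_left _ _).trans (le_max_right _ _)).trans hj
  have hjj3 : j3 ≤ j := ((le_max_right _ _).trans (le_max_right _ _)).trans hj
  have hv3 : max k1 3 ≤ v j := hj3 j hjj3
  have hvk1 : k1 ≤ v j := (le_max_left _ _).trans hv3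
  have hv33 : 3 ≤ v j := (le_max_right _ _).trans hv3
  set m := v j with hm
  have hm3 : (3 : ℝ) ≤ m := by exact_mod_cast hv33
  have hm0 : (0 : ℝ) < m := by linarith
  have hmk : (m : ℝ) ≤ k := by exact_mod_cast hvj
  have hlm : 0 < Real.log m := Real.log_pos (by linarith)
  have hl3 : Real.log m ≤ Real.log k := Real.log_le_log hm0 hmk
  have hgapj := hj2 j hjj2
  rw [← hm] at hgapj
  have hkm : (k : ℝ) ≤ m + ε * √(m : ℝ) := by
    have : (k : ℝ) ≤ v (j + 1) := by exact_mod_cast hvj1.le
    linarith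
  have hsq : √(m : ℝ) ≤ m := by
    rw [Real.sqrt_le_left (by linarith)]
    nlinarith
  have hsq0 : 0 < √(m : ℝ) := Real.sqrt_pos.2 hm0
  have hk2m : (k : ℝ) ≤ 2 * m := by nlinarith
  -- the sum of the differences
  have hlog2m : Real.log (2 * m) ≤ 2 * Real.log m := by
    rw [Real.log_mul (by norm_num) hm0.ne']
    have : Real.log 2 ≤ Real.log m := Real.log_le_log (by norm_num) (by linarith)
    linarith
  have hstep : ∀ i : ℕ, m + i ≤ k → |h (m + i) - h m| ≤ i * (C * (2 * Real.log m / √(m : ℝ))) := by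
    intro i
    induction i with
    | zero => intro _; simp
    | succ i ih =>
      intro hi
      have h5 := ih (by omega)
      have h6 := hk1 (m + i) (by omega)
      have h7 : Real.log ((m + i : ℕ) : ℝ) / √((m + i : ℕ) : ℝ) ≤ 2 * Real.log m / √(m : ℝ) := by
        have e1 : (m : ℝ) ≤ ((m + i : ℕ) : ℝ) := by push_cast; linarith [Nat.cast_nonneg (α := ℝ) i]
        have e2 : ((m + i : ℕ) : ℝ) ≤ 2 * m := by
          have : ((m + i : ℕ) : ℝ) ≤ k := by exact_mod_cast (by omega : m + i ≤ k)
          linarith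
        have e3 : Real.log ((m + i : ℕ) : ℝ) ≤ 2 * Real.log m :=
          (Real.log_le_log (by linarith) e2).trans hlog2m
        exact div_le_div₀ (by positivity) e3 hsq0 (Real.sqrt_le_sqrt e1)
      have e : m + (i + 1) = (m + i) + 1 := by ring
      rw [e]
      calc |h ((m + i) + 1) - h m| = |(h ((m + i) + 1) - h (m + i)) + (h (m + i) - h m)| := by
            congr 1; ring
        _ ≤ |h ((m + i) + 1) - h (m + i)| + |h (m + i) - h m| := abs_add_le _ _
        _ ≤ C * (2 * Real.log m / √(m : ℝ)) + i * (C * (2 * Real.log m / √(m : ℝ))) :=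
            add_le_add (h6.trans (mul_le_mul_of_nonneg_left h7 hC)) h5
        _ = ((i + 1 : ℕ) : ℝ) * (C * (2 * Real.log m / √(m : ℝ))) := by push_cast; ring
  have hsum := hstep (k - m) (by omega)
  have ekm : m + (k - m) = k := by omega
  rw [ekm] at hsum
  have hcast : ((k - m : ℕ) : ℝ) ≤ ε * √(m : ℝ) := by
    rw [Nat.cast_sub hvj]
    linarith
  have hsum2 : |h k - h m| ≤ 2 * C * ε * Real.log m := by
    refine hsum.trans ?_
    calc ((k - m : ℕ) : ℝ) * (C * (2 * Real.log m / √(m : ℝ)))
        ≤ (ε * √(m : ℝ)) * (C * (2 * Real.log m / √(m : ℝ))) :=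
          mul_le_mul_of_nonneg_right hcast (by positivity)
      _ = 2 * C * ε * Real.log m := by field_simp
  have hvalj : |h m - β * Real.log m| ≤ ε * Real.log m := by
    have h5 := hj1 j hjj1
    rw [Real.dist_eq, ← hm] at h5
    have e : h m - β * Real.log m = (h m / Real.log m - β) * Real.log m := by field_simp
    rw [e, abs_mul, abs_of_pos hlm]
    exact mul_le_mul_of_nonneg_right h5.le hlm.le
  have hlk : Real.log k - Real.log m ≤ Real.log 2 := by
    have : Real.log k ≤ Real.log (2 * m) := Real.log_le_log (by linarith) hk2m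
    rw [Real.log_mul (by norm_num) hm0.ne'] at this
    linarith
  have hβ : |β * (Real.log k - Real.log m)| ≤ |β| * Real.log 2 := by
    rw [abs_mul, abs_of_nonneg (by linarith : (0 : ℝ) ≤ Real.log k - Real.log m)]
    exact mul_le_mul_of_nonneg_left hlk (abs_nonneg _)
  have hlk0 : 0 < Real.log k := lt_of_lt_of_le hlm hl3
  have htot : |h k - β * Real.log k| ≤ (2 * C + 1) * ε * Real.log k + |β| * Real.log 2 := by
    have e : h k - β * Real.log k = (h k - h m) + (h m - β * Real.log m) -
        β * (Real.log k - Real.log m) := by ring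
    rw [e]
    refine (abs_sub _ _).trans ?_
    refine (add_le_add ((abs_add_le _ _).trans (add_le_add hsum2 hvalj)) hβ).trans ?_
    have h5 : 2 * C * ε * Real.log m + ε * Real.log m ≤ (2 * C + 1) * ε * Real.log k := by
      have : (2 * C + 1) * ε * Real.log m ≤ (2 * C + 1) * ε * Real.log k :=
        mul_le_mul_of_nonneg_left hl3 (by positivity)
      linarith
    linarith
  rw [Real.dist_eq]
  have e : h k / Real.log k - β = (h k - β * Real.log k) / Real.log k := by field_simp
  rw [e, abs_div, abs_of_pos hlk0, div_lt_iff₀ hlk0]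
  have h6 := hk2 k hkk2
  rw [div_lt_iff₀ hδ] at h6
  have h7 : (2 * C + 1) * ε * Real.log k ≤ δ / 4 * Real.log k :=
    mul_le_mul_of_nonneg_right hεδ hlk0.le
  nlinarith

/-- the leading order from that of the doubling -/
theorem lead_double {F : ℕ → ℝ} {α : ℝ} (hlim : Tendsto (fun k : ℕ => F k / k) atTop (𝓝 0))
    (hd : Tendsto (fun k : ℕ => (F (2 * k) - 2 * F k) / Real.log k) atTop (𝓝 (-α))) :
    Tendsto (fun k : ℕ => F k / Real.log k) atTop (𝓝 α) := by
  rw [Metric.tendsto_atTop] at hd ⊢
  intro δ hδ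
  obtain ⟨k1, hk1⟩ := hd (δ / 4) (by positivity)
  have hlog : Tendsto (fun k : ℕ => Real.log (k : ℝ)) atTop atTop :=
    Real.tendsto_log_atTop.comp tendsto_natCast_atTop_atTop
  obtain ⟨k2, hk2⟩ := eventually_atTop.1 (hlog.eventually_gt_atTop
    (4 * (|α| * Real.log 2) / δ))
  refine ⟨max k1 (max k2 3), fun k hk => ?_⟩
  have hkk1 : k1 ≤ k := (le_max_left _ _).trans hk
  have hkk2 : k2 ≤ k := ((le_max_left _ _).trans (le_max_right _ _)).trans hk
  have hk3 : 3 ≤ k := ((le_max_right _ _).trans (le_max_right _ _)).trans hk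
  have hk3' : (3 : ℝ) ≤ k := by exact_mod_cast hk3
  set g : ℕ → ℝ := fun n => F n - α * Real.log n - α * Real.log 2 with hg
  have hfun : ∀ n : ℕ, k ≤ n → |g (2 * n) - 2 * g n| ≤ δ / 4 * Real.log n := by
    intro n hn
    have hn0 : (0 : ℝ) < n := by
      have : (k : ℝ) ≤ n := by exact_mod_cast hn
      linarith
    have hn1 : (1 : ℝ) < n := by
      have : (k : ℝ) ≤ n := by exact_mod_cast hn
      linarith
    have hl : 0 < Real.log n := Real.log_pos hn1
    have h1 := hk1 n (hkk1.trans hn)
    rw [Real.dist_eq] at h1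
    have e : g (2 * n) - 2 * g n = ((F (2 * n) - 2 * F n) / Real.log n - -α) * Real.log n := by
      rw [hg]
      simp only
      push_cast
      rw [Real.log_mul (by norm_num) hn0.ne']
      field_simp
      ring
    rw [e, abs_mul, abs_of_pos hl]
    exact mul_le_mul_of_nonneg_right h1.le hl.le
  have hglim : Tendsto (fun n : ℕ => g n / n) atTop (𝓝 0) := by
    have h1 : Tendsto (fun n : ℕ => Real.log (n : ℝ) / n) atTop (𝓝 0) := by
      have h2 : Tendsto (fun x : ℝ => Real.log x / x) atTop (𝓝 0) := by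
        have := Real.isLittleO_log_id_atTop.tendsto_div_nhds_zero
        simpa using this
      exact h2.comp tendsto_natCast_atTop_atTop
    have h3 : Tendsto (fun n : ℕ => ((n : ℝ))⁻¹) atTop (𝓝 0) :=
      tendsto_inv_atTop_zero.comp tendsto_natCast_atTop_atTop
    have h4 := (hlim.sub (h1.const_mul α)).sub (h3.const_mul (α * Real.log 2))
    simp only [mul_zero, sub_zero] at h4
    refine h4.congr fun n => ?_
    rw [hg]
    simp only
    ring
  have key : ∀ m : ℕ, |g k| ≤ δ / 4 * (Real.log k + Real.log 2) + |g (2 ^ m * k)| / 2 ^ m -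
      δ / 4 * (Real.log ((2 ^ m * k : ℕ) : ℝ) + Real.log 2) / 2 ^ m := by
    intro m
    induction m with
    | zero =>
      simp
    | succ m ih =>
      have hp : 1 ≤ 2 ^ m := Nat.one_le_two_pow
      have hm1 : k ≤ 2 ^ m * k := Nat.le_mul_of_pos_left k hp
      have hn0 : (0 : ℝ) < ((2 ^ m * k : ℕ) : ℝ) := by
        have : (k : ℝ) ≤ ((2 ^ m * k : ℕ) : ℝ) := by exact_mod_cast hm1
        linarith
      have h1 := hfun _ hm1
      have h2 : |g (2 ^ m * k)| ≤
          (|g (2 * (2 ^ m * k))| + δ / 4 * Real.log ((2 ^ m * k : ℕ) : ℝ)) / 2 := by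
        have h3 : |2 * g (2 ^ m * k)| ≤ |g (2 * (2 ^ m * k)) - 2 * g (2 ^ m * k)| +
            |g (2 * (2 ^ m * k))| := by
          have := abs_sub_abs_le_abs_sub (2 * g (2 ^ m * k)) (g (2 * (2 ^ m * k)))
          rw [abs_sub_comm (2 * g (2 ^ m * k)) (g (2 * (2 ^ m * k)))] at this
          linarith
        rw [abs_mul, abs_of_pos (by norm_num : (0 : ℝ) < 2)] at h3
        linarith
      have e1 : 2 ^ (m + 1) * k = 2 * (2 ^ m * k) := by ring
      have e2 : Real.log ((2 * (2 ^ m * k) : ℕ) : ℝ) =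
          Real.log 2 + Real.log ((2 ^ m * k : ℕ) : ℝ) := by
        rw [Nat.cast_mul, Nat.cast_ofNat, Real.log_mul (by norm_num) hn0.ne']
      rw [e1, e2]
      have h8 : (0 : ℝ) < 2 ^ m := by positivity
      have h9 := div_le_div_of_nonneg_right h2 h8.le
      rw [pow_succ]
      have e3 : (|g (2 * (2 ^ m * k))| + δ / 4 * Real.log ((2 ^ m * k : ℕ) : ℝ)) / 2 / 2 ^ m -
          δ / 4 * (Real.log ((2 ^ m * k : ℕ) : ℝ) + Real.log 2) / 2 ^ m =
          |g (2 * (2 ^ m * k))| / (2 ^ m * 2) -
          δ / 4 * (Real.log 2 + Real.log ((2 ^ m * k : ℕ) : ℝ) + Real.log 2) / (2 ^ m * 2) := by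
        field_simp
        ring
      linarith
  have key2 : ∀ m : ℕ, |g k| ≤ δ / 4 * (Real.log k + Real.log 2) + |g (2 ^ m * k)| / 2 ^ m := by
    intro m
    have h1 := key m
    have h2 : 0 ≤ δ / 4 * (Real.log ((2 ^ m * k : ℕ) : ℝ) + Real.log 2) / 2 ^ m := by
      have : 0 ≤ Real.log ((2 ^ m * k : ℕ) : ℝ) := Real.log_natCast_nonneg _
      have h3 : 0 ≤ Real.log 2 := Real.log_nonneg (by norm_num)
      positivity
    linarith
  have hlim2 : Tendsto (fun m : ℕ => δ / 4 * (Real.log k + Real.log 2) +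
      |g (2 ^ m * k)| / 2 ^ m) atTop (𝓝 (δ / 4 * (Real.log k + Real.log 2) + 0)) := by
    have h2 : Tendsto (fun m : ℕ => 2 ^ m * k) atTop atTop := by
      refine tendsto_atTop_mono (fun m => ?_) tendsto_id
      exact (Nat.lt_two_pow_self (n := m)).le.trans (Nat.le_mul_of_pos_right _ (by omega))
    have h4 := ((hglim.comp h2).norm).mul_const (k : ℝ)
    rw [norm_zero, zero_mul] at h4
    refine Tendsto.add tendsto_const_nhds (h4.congr fun m => ?_)
    simp only [Function.comp_apply]
    rw [norm_div, Real.norm_eq_abs, Real.norm_eq_abs,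
      abs_of_nonneg (Nat.cast_nonneg (α := ℝ) (2 ^ m * k))]
    push_cast
    have : (0 : ℝ) < k := by linarith
    field_simp
  have hfin := ge_of_tendsto' hlim2 key2
  rw [add_zero] at hfin
  have hl : 0 < Real.log k := Real.log_pos (by linarith)
  have hl2 : Real.log 2 ≤ Real.log k := Real.log_le_log (by norm_num) (by linarith)
  rw [Real.dist_eq]
  have e : F k / Real.log k - α = (g k + α * Real.log 2) / Real.log k := by
    rw [hg]
    simp only
    field_simp
    ring
  rw [e, abs_div, abs_of_pos hl, div_lt_iff₀ hl]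
  have h6 := hk2 k hkk2
  rw [div_lt_iff₀ hδ] at h6
  have h7 : |g k + α * Real.log 2| ≤ |g k| + |α| * Real.log 2 := by
    refine (abs_add_le _ _).trans (le_of_eq ?_)
    rw [abs_mul α, abs_of_pos (Real.log_pos (by norm_num : (1 : ℝ) < 2))]
  nlinarith

/-- from the multiples of `st` to all lengths -/
theorem lead_all {f : ℕ → ℝ} {α C : ℝ} (st : ℕ) (hst : 1 ≤ st)
    (hd : ∀ᶠ n : ℕ in atTop, |f (n + 1) - f n| ≤ C)
    (h : Tendsto (fun k : ℕ => f (st * k) / Real.log ((st * k : ℕ) : ℝ)) atTop (𝓝 α)) :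
    Tendsto (fun n : ℕ => f n / Real.log n) atTop (𝓝 α) := by
  obtain ⟨N, hN⟩ := eventually_atTop.1 hd
  have hC : 0 ≤ C := (abs_nonneg _).trans (hN N le_rfl)
  have hdiv : Tendsto (fun n : ℕ => n / st) atTop atTop := Nat.tendsto_div_const_atTop
    (by omega)
  have h1 := h.comp hdiv
  have hlog : Tendsto (fun k : ℕ => Real.log (k : ℝ)) atTop atTop :=
    Real.tendsto_log_atTop.comp tendsto_natCast_atTop_atTop
  have hmt : Tendsto (fun n : ℕ => st * (n / st)) atTop atTop :=
    tendsto_atTop_mono (fun n => Nat.le_mul_of_pos_left _ (by omega)) hdiv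
  -- ratio of the logarithms
  have hrat : Tendsto (fun n : ℕ => Real.log ((st * (n / st) : ℕ) : ℝ) / Real.log n) atTop
      (𝓝 1) := by
    have h2 : Tendsto (fun n : ℕ => 1 - (Real.log n - Real.log ((st * (n / st) : ℕ) : ℝ)) /
        Real.log n) atTop (𝓝 (1 - 0)) := by
      refine tendsto_const_nhds.sub ?_
      have h3 : Tendsto (fun n : ℕ => Real.log 2 / Real.log (n : ℝ)) atTop (𝓝 0) :=
        hlog.const_div_atTop _
      refine squeeze_zero_norm' ?_ h3
      filter_upwards [eventually_ge_atTop (2 * st + 2)] with n hn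
      have hq := Nat.div_add_mod n st
      have hm := Nat.mod_lt n (show 0 < st by omega)
      have a1 : st * (n / st) ≤ n := by omega
      have a2 : n ≤ 2 * (st * (n / st)) := by omega
      have a0 : 1 ≤ st * (n / st) := by omega
      have b0 : (1 : ℝ) ≤ ((st * (n / st) : ℕ) : ℝ) := by exact_mod_cast a0
      have b1 : ((st * (n / st) : ℕ) : ℝ) ≤ n := by exact_mod_cast a1
      have b2 : (n : ℝ) ≤ 2 * ((st * (n / st) : ℕ) : ℝ) := by exact_mod_cast a2
      have c1 : Real.log ((st * (n / st) : ℕ) : ℝ) ≤ Real.log n := Real.log_le_log (by linarith) b1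
      have c2 : Real.log n ≤ Real.log 2 + Real.log ((st * (n / st) : ℕ) : ℝ) := by
        rw [← Real.log_mul (by norm_num) (by linarith)]
        exact Real.log_le_log (by linarith) b2
      have hn1 : (1 : ℝ) < n := by
        have : (2 : ℝ) ≤ n := by exact_mod_cast (by omega : 2 ≤ n)
        linarith
      have hl : 0 < Real.log n := Real.log_pos hn1
      rw [Real.norm_eq_abs, abs_of_nonneg (div_nonneg (by linarith) hl.le)]
      exact div_le_div_of_nonneg_right (by linarith) hl.le
    rw [sub_zero] at h2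
    refine h2.congr' ?_
    filter_upwards [eventually_ge_atTop 2] with n hn
    have hn1 : (1 : ℝ) < n := by exact_mod_cast hn
    have hl : 0 < Real.log n := Real.log_pos hn1
    field_simp
    ring
  have hmain : Tendsto (fun n : ℕ => f (st * (n / st)) / Real.log n) atTop (𝓝 α) := by
    have h2 := h1.mul hrat
    rw [mul_one] at h2
    refine h2.congr' ?_
    filter_upwards [hmt.eventually_ge_atTop 2, eventually_ge_atTop 2] with n hn hn2
    have hn1 : (1 : ℝ) < ((st * (n / st) : ℕ) : ℝ) := by exact_mod_cast hn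
    have hl : 0 < Real.log ((st * (n / st) : ℕ) : ℝ) := Real.log_pos hn1
    have hn3 : (1 : ℝ) < n := by exact_mod_cast hn2
    have hl2 : 0 < Real.log n := Real.log_pos hn3
    simp only [Function.comp_apply]
    field_simp
  have hsmall : Tendsto (fun n : ℕ => (f n - f (st * (n / st))) / Real.log n) atTop (𝓝 0) := by
    have h3 : Tendsto (fun n : ℕ => (st * C) / Real.log (n : ℝ)) atTop (𝓝 0) :=
      hlog.const_div_atTop _
    refine squeeze_zero_norm' ?_ h3
    filter_upwards [hmt.eventually_ge_atTop N, eventually_ge_atTop 2] with n hn hn2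
    have hn3 : (1 : ℝ) < n := by exact_mod_cast hn2
    have hl2 : 0 < Real.log n := Real.log_pos hn3
    have hst' : ∀ i : ℕ, |f (st * (n / st) + i) - f (st * (n / st))| ≤ i * C := by
      intro i
      induction i with
      | zero => simp
      | succ i ih =>
        have h5 := hN (st * (n / st) + i) (by omega)
        have e : st * (n / st) + (i + 1) = st * (n / st) + i + 1 := by ring
        rw [e]
        calc _ = |(f (st * (n / st) + i + 1) - f (st * (n / st) + i)) +
              (f (st * (n / st) + i) - f (st * (n / st)))| := by congr 1; ring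
          _ ≤ _ := abs_add_le _ _
          _ ≤ C + i * C := add_le_add h5 ih
          _ = ((i + 1 : ℕ) : ℝ) * C := by push_cast; ring
    have h6 := hst' (n % st)
    rw [Nat.div_add_mod] at h6
    have h7 : ((n % st : ℕ) : ℝ) ≤ st := by
      exact_mod_cast (Nat.mod_lt n (show 0 < st by omega)).le
    rw [norm_div, Real.norm_eq_abs, Real.norm_eq_abs, abs_of_pos hl2]
    refine div_le_div_of_nonneg_right (h6.trans ?_) hl2.le
    exact mul_le_mul_of_nonneg_right h7 hC
  have := hmain.add hsmall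
  rw [add_zero] at this
  refine this.congr fun n => ?_
  ring

end Pool.Agent.U611.DX
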